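import Pool.Agent.Run7.h800.RG.EXB
import Pool.Agent.Run7.h800.RG.INC
import Pool.Agent.Run7.h800.RG.GDB
import Pool.Agent.Run7.h800.RG.GMA
import Pool.Agent.Run7.h800.RG.ZER
import Pool.Agent.Run7.h800.RG.Fin
import Pool.Agent.Run7.h887.RG.ARI
import Pool.Agent.Run7.h887.RG.ENE
import Pool.Agent.Run7.h415.RG.CDF
import Pool.Agent.Run7.h415.RG.NAC
import Pool.Agent.Run7.h376.RG.GAU
import Pool.Agent.Run7.h376.RG.COM
import Pool.Agent.Run7.h660.RG.FIL
import Pool.Agent.Run7.h660.RG.TWR
import Pool.Agent.Run7.h331.RG.FMA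
import Pool.Agent.Run7.h805.RG.ADA
import Pool.Agent.Run7.h118.RG.UIL
import Pool.Agent.Run7.h118.RG.VIT
import Pool.Agent.Run7.h713.RG.OST
import Pool.Agent.Run7.h713.RG.UNI
import Pool.Agent.Run7.h590.RG.BAY
import Pool.Agent.Run7.h713.RG.LIM

/-!
# A continuous local martingale which is a semimartingale in another filtration need not be regular

The disproof of Q1 of `MP_e3daee_pr`. `W` is a Brownian motion, `μ` an independent random measure on `[0, 1]`,
singular with probability `1/2` and `0` with probability `1/2`: `μ_θ` is the law of a point with independent mixed radix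
digits, the `k`-th digit (of `2k + 4`) being uniform in the digits different from the `k`-th digit of `θ`.
`M = W + μ[0, ·]`, `F` is the (augmented) filtration of `M`, `G` that of `(W, θ)`. The compensator of `μ[0, ·]` in `F` is
absolutely continuous, with a square integrable density `b` (a second moment estimate for Bayes' formula), so
`X = M - ∫ b` is an `F`-martingale; in `G` it is the semimartingale `W + (μ[0, ·] - ∫ b)`, whose drift is not
absolutely continuous with respect to `[W, W]_t = t` with probability at least `1/2`.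
-/

set_option autoImplicit false

open scoped ENNReal NNReal Topology
open MeasureTheory ProbabilityTheory Set Filter

namespace Pool.Agent.Results.MP_e3daee_pr.NotRegular

open Run7.h800.RG

/-- There are a complete probability space, two filtrations `F`, `G` which contain the null sets, and a continuous
`F`-local martingale `X` which is a continuous `G`-semimartingale but not a regular one. -/
theorem result : ∃ (Ω : Type) (m : MeasurableSpace Ω) (P : Measure Ω) (F G : Filtration ℝ≥0 m)
    (X : ℝ≥0 → Ω → ℝ), IsProbabilityMeasure P ∧ P.IsComplete ∧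
    (∀ s : Set Ω, P s = 0 → MeasurableSet[F 0] s) ∧ (∀ s : Set Ω, P s = 0 → MeasurableSet[G 0] s) ∧
    CLM F P X ∧ Semi G P X ∧ ¬ Reg G P X := by
  have hARI : S_ARI := Run7.h887.RG.t_ARI
  have hCDF : S_CDF := Run7.h415.RG.t_CDF hARI
  have hENE : S_ENE := Run7.h887.RG.t_ENE
  have hGAU : S_GAU := Run7.h376.RG.t_GAU
  have hINC : S_INC := t_INC
  have hBAY : S_BAY := Run7.h590.RG.t_BAY hARI hCDF hENE hGAU hINC
  have hFIL : S_FIL := Run7.h660.RG.t_FIL hARI hCDF
  have hTWR : S_TWR := Run7.h660.RG.TW.t_TWR hARI hFIL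
  have hLIM : S_LIM := Run7.h713.RG.t_LIM hARI hBAY hFIL hTWR
  have hGDB : S_GDB := t_GDB hFIL
  have hADA : S_ADA := Run7.h805.RG.t_ADA hFIL hGDB
  have hFMA : S_FMA := Run7.h331.RG.t_FMA hARI hCDF hFIL hGDB
  have hNAC : S_NAC := Run7.h415.RG.t_NAC hARI hCDF
  have hCOM : S_COM := Run7.h376.RG.t_COM
  have hMAIN : S_MAIN := t_MAIN t_EXB hCDF hFIL hLIM hGDB hADA hFMA t_GMA hNAC hCOM
  have hOST : S_OST := Run7.h713.RG.t_OST Run7.h118.RG.t_UIL Run7.h118.RG.t_VIT
  have hZER : S_ZER := t_ZER Run7.h118.RG.t_UIL Run7.h118.RG.t_VIT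
  exact t_FIN hMAIN (Run7.h713.RG.t_UNI hOST hZER)

end Pool.Agent.Results.MP_e3daee_pr.NotRegular
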